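import Mathlib

/-!
# GP-N4d: primitive vectors have density `6 / π ^ 2`
-/

open Finset
open scoped Classical

namespace GPG

noncomputable section

namespace N4d

/-- Primitive vectors of the box. -/
def PB (n : ℕ) : Finset (ℕ × ℕ) :=
  (Icc 1 n ×ˢ Icc 1 n).filter (fun d => Nat.Coprime d.1 d.2)

lemma mem_PB {n : ℕ} {d : ℕ × ℕ} :
    d ∈ PB n ↔ (1 ≤ d.1 ∧ d.1 ≤ n) ∧ (1 ≤ d.2 ∧ d.2 ≤ n) ∧ Nat.Coprime d.1 d.2 := by
  simp [PB, and_assoc]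

lemma PB_mono {m n : ℕ} (h : m ≤ n) : PB m ⊆ PB n := by
  intro d hd
  rw [mem_PB] at hd ⊢
  exact ⟨⟨hd.1.1, hd.1.2.trans h⟩, ⟨hd.2.1.1, hd.2.1.2.trans h⟩, hd.2.2⟩

lemma step (w : ℕ → ℕ → ℝ)
    (h4 : ∀ p q : ℕ, 1 ≤ p → 1 ≤ q → w p q ≤ 4 / (max (p : ℝ) q) ^ 2) (k : ℕ) :
    ∑ d ∈ PB (k + 1), w d.1 d.2 ≤ ∑ d ∈ PB k, w d.1 d.2 + 8 / ((k : ℝ) + 1) := by
  rw [← Finset.sum_sdiff (PB_mono (Nat.le_succ k)), add_comm]
  refine add_le_add_right ?_ _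
  have h1 : ∀ d ∈ PB (k + 1) \ PB k, w d.1 d.2 ≤ 4 / ((k : ℝ) + 1) ^ 2 := by
    intro d hd
    rw [mem_sdiff, mem_PB, mem_PB] at hd
    obtain ⟨⟨⟨a1, a2⟩, ⟨a3, a4⟩, a5⟩, h⟩ := hd
    refine (h4 d.1 d.2 a1 a3).trans ?_
    have : (k : ℝ) + 1 ≤ max (d.1 : ℝ) d.2 := by
      by_cases h' : k + 1 ≤ d.1
      · exact le_max_of_le_left (by exact_mod_cast h')
      · by_cases h'' : k + 1 ≤ d.2
        · exact le_max_of_le_right (by exact_mod_cast h'')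
        · exact absurd ⟨⟨a1, by omega⟩, ⟨a3, by omega⟩, a5⟩ h
    exact div_le_div_of_nonneg_left (by norm_num) (by positivity)
      (pow_le_pow_left₀ (by positivity) this 2)
  have h2 : (PB (k + 1) \ PB k).card ≤ 2 * k + 1 := by
    have hsub : PB (k + 1) \ PB k ⊆
        (Icc 1 (k + 1) ×ˢ Icc 1 (k + 1)) \ (Icc 1 k ×ˢ Icc 1 k) := by
      intro d hd
      rw [mem_sdiff, mem_PB, mem_PB] at hd
      obtain ⟨⟨⟨a1, a2⟩, ⟨a3, a4⟩, a5⟩, h⟩ := hd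
      rw [mem_sdiff, mem_product, mem_product, mem_Icc, mem_Icc, mem_Icc, mem_Icc]
      exact ⟨⟨⟨a1, a2⟩, a3, a4⟩, fun h' => h ⟨h'.1, h'.2, a5⟩⟩
    refine (card_le_card hsub).trans ?_
    rw [card_sdiff_of_subset (product_subset_product (Icc_subset_Icc_right (Nat.le_succ k))
      (Icc_subset_Icc_right (Nat.le_succ k))), card_product, card_product, Nat.card_Icc,
      Nat.card_Icc]
    simp only [Nat.add_sub_cancel, Nat.succ_eq_add_one]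
    have : (k + 1) * (k + 1) = k * k + (2 * k + 1) := by ring
    omega
  calc ∑ d ∈ PB (k + 1) \ PB k, w d.1 d.2
      ≤ ∑ _d ∈ PB (k + 1) \ PB k, 4 / ((k : ℝ) + 1) ^ 2 := sum_le_sum h1
    _ = (PB (k + 1) \ PB k).card * (4 / ((k : ℝ) + 1) ^ 2) := by
        rw [sum_const, nsmul_eq_mul]
    _ ≤ (2 * k + 1 : ℝ) * (4 / ((k : ℝ) + 1) ^ 2) := by
        refine mul_le_mul_of_nonneg_right ?_ (by positivity)
        exact_mod_cast h2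
    _ ≤ 8 / ((k : ℝ) + 1) := by
        rw [mul_div_assoc', div_le_div_iff₀ (by positivity) (by positivity)]
        have : (0 : ℝ) ≤ k := Nat.cast_nonneg k
        nlinarith

lemma steps (w : ℕ → ℕ → ℝ)
    (h4 : ∀ p q : ℕ, 1 ≤ p → 1 ≤ q → w p q ≤ 4 / (max (p : ℝ) q) ^ 2) (m j : ℕ) :
    ∑ d ∈ PB (m + j), w d.1 d.2 ≤ ∑ d ∈ PB m, w d.1 d.2 + j * (8 / ((m : ℝ) + 1)) := by
  induction j with
  | zero => simp
  | succ j ih =>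
    have h := step w h4 (m + j)
    have h2 : 8 / (((m + j : ℕ) : ℝ) + 1) ≤ 8 / ((m : ℝ) + 1) := by
      refine div_le_div_of_nonneg_left (by norm_num) (by positivity) ?_
      push_cast
      have : (0 : ℝ) ≤ j := Nat.cast_nonneg j
      linarith
    have h3 : ((j + 1 : ℕ) : ℝ) * (8 / ((m : ℝ) + 1)) =
        j * (8 / ((m : ℝ) + 1)) + 8 / ((m : ℝ) + 1) := by push_cast; ring
    rw [h3, ← add_assoc m j 1]
    linarith

lemma div_bound (w : ℕ → ℕ → ℝ)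
    (h4 : ∀ p q : ℕ, 1 ≤ p → 1 ≤ q → w p q ≤ 4 / (max (p : ℝ) q) ^ 2) (n g : ℕ) (hg : 1 ≤ g) :
    ∑ d ∈ PB n, w d.1 d.2 ≤ ∑ d ∈ PB (n / g), w d.1 d.2 + 8 * g := by
  have h1 : n / g ≤ n := Nat.div_le_self n g
  have h := steps w h4 (n / g) (n - n / g)
  rw [Nat.add_sub_cancel' h1] at h
  refine h.trans (add_le_add_right ?_ _)
  have h2 : n < g * (n / g + 1) := by
    have := Nat.lt_mul_div_succ n (Nat.lt_of_lt_of_le Nat.zero_lt_one hg)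
    simpa using this
  rw [mul_div_assoc', div_le_iff₀ (by positivity)]
  have h3 : ((n - n / g : ℕ) : ℝ) ≤ g * ((n / g : ℕ) + 1) := by
    have : n - n / g ≤ g * (n / g + 1) := (Nat.sub_le _ _).trans h2.le
    exact_mod_cast this
  nlinarith

lemma main_ineq (w : ℕ → ℕ → ℝ) (h0 : ∀ p q, 0 ≤ w p q)
    (hh : ∀ g p q : ℕ, 1 ≤ g → 1 ≤ p → 1 ≤ q → w (g * p) (g * q) = w p q / g ^ 2) (n G : ℕ) :
    ∑ g ∈ Icc 1 G, (∑ d ∈ PB (n / g), w d.1 d.2) / (g : ℝ) ^ 2 ≤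
      ∑ d ∈ Icc 1 n ×ˢ Icc 1 n, w d.1 d.2 := by
  have h1 : ∑ g ∈ Icc 1 G, (∑ d ∈ PB (n / g), w d.1 d.2) / (g : ℝ) ^ 2 =
      ∑ x ∈ (Icc 1 G).sigma (fun g => PB (n / g)), w (x.1 * x.2.1) (x.1 * x.2.2) := by
    rw [Finset.sum_sigma]
    refine sum_congr rfl fun g hg => ?_
    rw [sum_div]
    refine sum_congr rfl fun d hd => ?_
    rw [mem_PB] at hd
    exact (hh g d.1 d.2 (mem_Icc.1 hg).1 hd.1.1 hd.2.1.1).symm
  have hinj : Set.InjOn (fun x : (Σ _ : ℕ, ℕ × ℕ) => (x.1 * x.2.1, x.1 * x.2.2))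
      ((Icc 1 G).sigma (fun g => PB (n / g)) : Finset (Σ _ : ℕ, ℕ × ℕ)) := by
    rintro ⟨g, p, q⟩ hx ⟨g', p', q'⟩ hy hxy
    simp only [coe_sigma, Set.mem_sigma_iff, mem_coe, mem_PB, mem_Icc] at hx hy
    simp only [Prod.mk.injEq] at hxy
    obtain ⟨e1, e2⟩ := hxy
    have hgg : g = g' := by
      have a1 : Nat.gcd (g * p) (g * q) = g := by
        rw [Nat.gcd_mul_left, hx.2.2.2, mul_one]
      have a2 : Nat.gcd (g' * p') (g' * q') = g' := by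
        rw [Nat.gcd_mul_left, hy.2.2.2, mul_one]
      rw [← a1, e1, e2, a2]
    subst hgg
    have hg0 : 0 < g := hx.1.1
    rw [Nat.eq_of_mul_eq_mul_left hg0 e1, Nat.eq_of_mul_eq_mul_left hg0 e2]
  rw [h1, ← Finset.sum_image (f := fun d : ℕ × ℕ => w d.1 d.2) hinj]
  refine sum_le_sum_of_subset_of_nonneg ?_ fun d _ _ => h0 _ _
  intro d hd
  obtain ⟨⟨g, p, q⟩, hx, rfl⟩ := mem_image.1 hd
  simp only [mem_sigma, mem_PB, mem_Icc] at hx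
  obtain ⟨⟨g1, g2⟩, ⟨p1, p2⟩, ⟨q1, q2⟩, -⟩ := hx
  rw [mem_product, mem_Icc, mem_Icc]
  have hdiv : g * (n / g) ≤ n := Nat.mul_div_le n g
  exact ⟨⟨Nat.mul_pos g1 p1, (Nat.mul_le_mul_left g p2).trans hdiv⟩,
    ⟨Nat.mul_pos g1 q1, (Nat.mul_le_mul_left g q2).trans hdiv⟩⟩

lemma exists_G (ε : ℝ) (hε : 0 < ε) :
    ∃ G : ℕ, 0 < ∑ g ∈ Icc 1 G, 1 / (g : ℝ) ^ 2 ∧
      1 / (∑ g ∈ Icc 1 G, 1 / (g : ℝ) ^ 2) ≤ 6 / Real.pi ^ 2 + ε := by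
  have h1 := hasSum_zeta_two.tendsto_sum_nat
  have hpi := Real.pi_pos
  have h2 : Filter.Tendsto (fun n : ℕ => (∑ i ∈ range n, 1 / (i : ℝ) ^ 2)⁻¹) Filter.atTop
      (nhds (Real.pi ^ 2 / 6)⁻¹) := h1.inv₀ (by positivity)
  have h3 : ∀ᶠ n : ℕ in Filter.atTop, (∑ i ∈ range n, 1 / (i : ℝ) ^ 2)⁻¹ <
      6 / Real.pi ^ 2 + ε := by
    refine h2.eventually_lt_const ?_
    rw [inv_div]
    linarith
  obtain ⟨N, hN⟩ := Filter.eventually_atTop.1 h3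
  have e : ∀ G : ℕ, ∑ g ∈ Icc 1 G, 1 / (g : ℝ) ^ 2 = ∑ i ∈ range (G + 1), 1 / (i : ℝ) ^ 2 := by
    intro G
    rw [Finset.range_eq_Ico, Finset.sum_eq_sum_Ico_succ_bot (Nat.succ_pos G)]
    simp
    rfl
  refine ⟨N + 1, ?_, ?_⟩
  · refine sum_pos (fun g hg => ?_) ⟨1, by simp⟩
    have : 0 < g := (mem_Icc.1 hg).1
    positivity
  · rw [e, one_div]
    exact (hN _ (by omega)).le

end N4d

open N4d in
/-- primitive vectors have density `6 / π ^ 2`, for functions homogeneous of degree `-2` -/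
theorem NT4d (ε : ℝ) (hε : 0 < ε) : ∃ C : ℝ, ∀ w : ℕ → ℕ → ℝ,
    (∀ p q, 0 ≤ w p q) →
    (∀ g p q : ℕ, 1 ≤ g → 1 ≤ p → 1 ≤ q → w (g * p) (g * q) = w p q / g ^ 2) →
    (∀ p q : ℕ, 1 ≤ p → 1 ≤ q → w p q ≤ 4 / (max (p : ℝ) q) ^ 2) →
    ∀ n : ℕ, ∑ d ∈ (Icc 1 n ×ˢ Icc 1 n).filter (fun d => Nat.Coprime d.1 d.2), w d.1 d.2 ≤
      (6 / Real.pi ^ 2 + ε) * ∑ d ∈ Icc 1 n ×ˢ Icc 1 n, w d.1 d.2 + C := by
  obtain ⟨G, hG0, hG⟩ := exists_G ε hε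
  refine ⟨8 * G, fun w h0 hh h4 n => ?_⟩
  show ∑ d ∈ PB n, w d.1 d.2 ≤ _
  set S : ℝ := ∑ g ∈ Icc 1 G, 1 / (g : ℝ) ^ 2 with hS
  set T : ℝ := ∑ d ∈ Icc 1 n ×ˢ Icc 1 n, w d.1 d.2 with hT
  set U : ℝ := ∑ d ∈ PB n, w d.1 d.2 with hU
  have hT0 : 0 ≤ T := sum_nonneg fun d _ => h0 _ _
  have h1 : (U - 8 * G) * S ≤ T := by
    refine le_trans ?_ (main_ineq w h0 hh n G)
    rw [hS, mul_sum]
    refine sum_le_sum fun g hg => ?_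
    obtain ⟨g1, g2⟩ := mem_Icc.1 hg
    rw [mul_one_div]
    refine div_le_div_of_nonneg_right ?_ (by positivity)
    have := div_bound w h4 n g g1
    have hgG : (g : ℝ) ≤ G := by exact_mod_cast g2
    linarith
  have h2 : U - 8 * G ≤ T / S := by rw [le_div_iff₀ hG0]; exact h1
  have h3 : T / S ≤ (6 / Real.pi ^ 2 + ε) * T := by
    have : T / S = 1 / S * T := by ring
    rw [this]
    exact mul_le_mul_of_nonneg_right hG hT0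
  linarith

end

end GPG
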